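import Mathlib

set_option autoImplicit false

namespace Pool.Agent.Results.MP_ee8878_co.ExponentTriangulation

/-- The extension to `M_ℝ = ℝ^d` of an affine automorphism `φ` of the lattice `M = ℤ^d`:
the map `u ↦ A u + b`, where `A` is the matrix of the linear part of `φ` (its `j`-th column is
`φ.linear e_j`) and `b = φ 0`. -/
noncomputable def realExt {d : ℕ} (φ : (Fin d → ℤ) ≃ᵃ[ℤ] (Fin d → ℤ)) (u : Fin d → ℝ) :
    Fin d → ℝ :=
  fun i => (∑ j, ((φ.linear (Pi.single j 1) i : ℤ) : ℝ) * u j) + ((φ 0 i : ℤ) : ℝ)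

/-- The lattice polytope spanned by a finite set `V` of lattice points: the convex hull of `V`
in `ℝ^d`. -/
def latticePolytope {d : ℕ} (V : Finset (Fin d → ℤ)) : Set (Fin d → ℝ) :=
  convexHull ℝ ((fun (v : Fin d → ℤ) (i : Fin d) => ((v i : ℤ) : ℝ)) '' (V : Set (Fin d → ℤ)))

/-- `K` is a triangulation of `P` with all vertices in `(1/N) ℤ^d` which is invariant under the
action `ρ`. (No regularity is asked for.) -/
structure IsInvariantTriangulation {G : Type} [Group G] {d : ℕ}
    (ρ : G →* ((Fin d → ℤ) ≃ᵃ[ℤ] (Fin d → ℤ))) (P : Set (Fin d → ℝ)) (N : ℕ)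
    (K : Geometry.SimplicialComplex ℝ (Fin d → ℝ)) : Prop where
  /-- there are finitely many simplices -/
  finite_faces : K.faces.Finite
  /-- the simplices cover exactly `P` -/
  space_eq : K.space = P
  /-- every vertex lies in `(1/N) ℤ^d` -/
  vertices_mem : ∀ s ∈ K.faces, ∀ v ∈ s, ∃ m : Fin d → ℤ, ∀ i, (N : ℝ) * v i = (m i : ℝ)
  /-- every group element maps simplices onto simplices -/
  invariant : ∀ g : G, ∀ s ∈ K.faces, s.image (realExt (ρ g)) ∈ K.faces

section aux

variable {A : Type} [AddCommGroup A] [Fintype A] [DecidableEq A]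

/-- Extend a function on the nonzero elements of `A` to `A` so that the total sum is `c`. -/
def extd {R : Type} [CommRing R] (c : R) (u : {a : A // a ≠ 0} → R) (a : A) : R :=
  if h : a = 0 then c - ∑ j, u j else u ⟨a, h⟩

lemma sum_extd {R : Type} [CommRing R] (c : R) (u : {a : A // a ≠ 0} → R) :
    ∑ a, extd c u a = c := by
  classical
  rw [← Finset.add_sum_erase _ _ (Finset.mem_univ (0 : A))]
  have h1 : extd c u (0 : A) = c - ∑ j, u j := by simp [extd]
  have h2 : ∑ x ∈ Finset.univ.erase (0 : A), extd c u x = ∑ j, u j := by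
    have := Finset.sum_subtype (F := inferInstance) (Finset.univ.erase (0 : A))
      (p := fun a => a ≠ 0) (by intro x; simp) (fun x => extd c u x)
    rw [this]
    apply Finset.sum_congr rfl
    intro j _
    have hj := j.2
    simp [extd, hj]
  rw [h1, h2]; ring

lemma extd_restrict {R : Type} [CommRing R] (c : R) (y : A → R) (h : ∑ a, y a = c) :
    extd c (fun j : {a : A // a ≠ 0} => y j.1) = y := by
  funext a
  by_cases ha : a = 0
  · subst ha
    have h2 := sum_extd c (fun j : {a : A // a ≠ 0} => y j.1)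
    classical
    rw [← Finset.add_sum_erase _ _ (Finset.mem_univ (0 : A))] at h2 h
    have h3 : ∑ x ∈ Finset.univ.erase (0 : A), extd c (fun j : {a : A // a ≠ 0} => y j.1) x
        = ∑ x ∈ Finset.univ.erase (0 : A), y x := by
      apply Finset.sum_congr rfl
      intro x hx
      have : x ≠ 0 := (Finset.mem_erase.mp hx).1
      simp [extd, this]
    rw [h3] at h2
    have := h2.trans h.symm
    exact add_right_cancel this
  · simp [extd, ha]

lemma extd_add {R : Type} [CommRing R] (c c' : R) (u u' : {a : A // a ≠ 0} → R) (a : A) :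
    extd (c + c') (fun j => u j + u' j) a = extd c u a + extd c' u' a := by
  unfold extd
  split_ifs
  · rw [Finset.sum_add_distrib]; ring
  · rfl

lemma extd_smul {R : Type} [CommRing R] (r c : R) (u : {a : A // a ≠ 0} → R) (a : A) :
    extd (r * c) (fun j => r * u j) a = r * extd c u a := by
  unfold extd
  split_ifs
  · rw [← Finset.mul_sum]; ring
  · rfl

lemma extd_cast (c : ℤ) (u : {a : A // a ≠ 0} → ℤ) (a : A) :
    extd (c : ℝ) (fun j => ((u j : ℤ) : ℝ)) a = ((extd c u a : ℤ) : ℝ) := by
  unfold extd
  split_ifs <;> push_cast <;> rfl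

variable {d : ℕ} (e : Fin d ≃ Bool × {a : A // a ≠ 0})

/-- The block with index `b`. -/
def blk {R : Type} (u : Fin d → R) (b : Bool) : {a : A // a ≠ 0} → R := fun j => u (e.symm (b, j))

/-- The translation action in coordinates; `c = 1` for the affine one, `c = 0` for its linear
part. -/
def act {R : Type} [CommRing R] (c : R) (g : Bool → A) (u : Fin d → R) : Fin d → R :=
  fun i => extd c (blk e u (e i).1) ((e i).2.1 - g (e i).1)

lemma blk_act {R : Type} [CommRing R] (c : R) (g : Bool → A) (u : Fin d → R) (b : Bool)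
    (j : {a : A // a ≠ 0}) :
    blk e (act e c g u) b j = extd c (blk e u b) (j.1 - g b) := by
  simp [blk, act]

lemma extd_blk_act {R : Type} [CommRing R] (c : R) (g : Bool → A) (u : Fin d → R) (b : Bool)
    (a : A) :
    extd c (blk e (act e c g u) b) a = extd c (blk e u b) (a - g b) := by
  have h1 : blk e (act e c g u) b = fun j : {a : A // a ≠ 0} =>
      (fun a => extd c (blk e u b) (a - g b)) j.1 := by
    funext j; exact blk_act e c g u b j
  rw [h1, extd_restrict c (fun a => extd c (blk e u b) (a - g b))]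
  exact ((Equiv.subRight (g b)).sum_comp (fun a => extd c (blk e u b) a)).trans
    (sum_extd c (blk e u b))

lemma ext_of_extd {R : Type} [CommRing R] (c : R) (u v : Fin d → R)
    (h : ∀ b a, extd c (blk e u b) a = extd c (blk e v b) a) : u = v := by
  funext i
  have h1 := h (e i).1 (e i).2.1
  have h2 := (e i).2.2
  simpa [extd, h2, blk] using h1

lemma act_zero {R : Type} [CommRing R] (c : R) (u : Fin d → R) : act e c 0 u = u := by
  apply ext_of_extd e c
  intro b a
  rw [extd_blk_act]; simp

lemma act_add {R : Type} [CommRing R] (c : R) (g h : Bool → A) (u : Fin d → R) :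
    act e c (g + h) u = act e c g (act e c h u) := by
  apply ext_of_extd e c
  intro b a
  rw [extd_blk_act, extd_blk_act, extd_blk_act]
  congr 1
  simp [sub_sub]

lemma act_vadd {R : Type} [CommRing R] (c c' : R) (g : Bool → A) (u v : Fin d → R) :
    act e (c + c') g (u + v) = act e c g u + act e c' g v := by
  funext i
  exact extd_add c c' (blk e u (e i).1) (blk e v (e i).1) _

lemma act_smul {R : Type} [CommRing R] (r : R) (g : Bool → A) (u : Fin d → R) :
    act e 0 g (r • u) = r • act e 0 g u := by
  funext i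
  have := extd_smul r 0 (blk e u (e i).1) ((e i).2.1 - g (e i).1)
  rw [mul_zero] at this
  exact this

/-- The linear part. -/
def actLin (R : Type) [CommRing R] (g : Bool → A) : (Fin d → R) →ₗ[R] (Fin d → R) where
  toFun := act e 0 g
  map_add' u v := by
    have := act_vadd e (0 : R) 0 g u v
    rwa [add_zero] at this
  map_smul' r u := act_smul e r g u

/-- The affine map. -/
def actAff (R : Type) [CommRing R] (g : Bool → A) : (Fin d → R) →ᵃ[R] (Fin d → R) where
  toFun := act e 1 g
  linear := actLin e R g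
  map_vadd' p v := by
    have := act_vadd e (0 : R) 1 g v p
    rw [zero_add] at this
    exact this

/-- The action as a monoid homomorphism to affine self maps. -/
def actHom (R : Type) [CommRing R] :
    Multiplicative (Bool → A) →* ((Fin d → R) →ᵃ[R] (Fin d → R)) where
  toFun g := actAff e R (Multiplicative.toAdd g)
  map_one' := by
    ext u : 1
    exact act_zero e 1 u
  map_mul' g h := by
    ext u : 1
    exact act_add e 1 _ _ u

/-- The action by affine automorphisms. -/
noncomputable def rho : Multiplicative (Bool → A) →* ((Fin d → ℤ) ≃ᵃ[ℤ] (Fin d → ℤ)) :=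
  (AffineEquiv.equivUnitsAffineMap (k := ℤ) (P₁ := Fin d → ℤ)).symm.toMonoidHom.comp
    (actHom e ℤ).toHomUnits

lemma rho_apply (g : Multiplicative (Bool → A)) (u : Fin d → ℤ) :
    rho e g u = act e 1 (Multiplicative.toAdd g) u := rfl

lemma rho_linear (g : Multiplicative (Bool → A)) (u : Fin d → ℤ) :
    (rho e g).linear u = act e 0 (Multiplicative.toAdd g) u := by
  have h1 := (rho e g).map_vadd 0 u
  have h2 := act_vadd e (0 : ℤ) 1 (Multiplicative.toAdd g) u 0
  rw [zero_add, add_zero] at h2
  simp only [vadd_eq_add, add_zero] at h1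
  rw [rho_apply, rho_apply, h2] at h1
  exact (add_right_cancel h1).symm

lemma act_cast (c : ℤ) (g : Bool → A) (u : Fin d → ℤ) :
    act e (c : ℝ) g (fun i => ((u i : ℤ) : ℝ)) = fun i => ((act e c g u i : ℤ) : ℝ) := by
  funext i
  exact extd_cast c (blk e u (e i).1) _

lemma realExt_rho (g : Multiplicative (Bool → A)) (u : Fin d → ℝ) :
    realExt (rho e g) u = act e 1 (Multiplicative.toAdd g) u := by
  have h2 := act_vadd e (0 : ℝ) 1 (Multiplicative.toAdd g) u 0
  rw [zero_add, add_zero] at h2
  rw [h2]
  funext i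
  unfold realExt
  rw [Pi.add_apply]
  congr 1
  · have h3 := LinearMap.pi_apply_eq_sum_univ (actLin e ℝ (Multiplicative.toAdd g)) u
    have h4 : act e (0 : ℝ) (Multiplicative.toAdd g) u
        = actLin e ℝ (Multiplicative.toAdd g) u := rfl
    rw [h4, h3, Finset.sum_apply]
    apply Finset.sum_congr rfl
    intro j _
    rw [Pi.smul_apply, smul_eq_mul, mul_comm]
    congr 1
    have h5 : (fun k : Fin d => if j = k then (1 : ℝ) else 0)
        = fun k => (((Pi.single j 1 : Fin d → ℤ) k : ℤ) : ℝ) := by
      funext k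
      by_cases hk : j = k
      · subst hk; simp
      · have : k ≠ j := fun h => hk h.symm
        simp [hk, this]
    rw [h5]
    have h6 := act_cast e 0 (Multiplicative.toAdd g) (Pi.single j 1 : Fin d → ℤ)
    rw [rho_linear]
    have h7 : actLin e ℝ (Multiplicative.toAdd g)
        (fun k => (((Pi.single j 1 : Fin d → ℤ) k : ℤ) : ℝ)) i
        = act e ((0 : ℤ) : ℝ) (Multiplicative.toAdd g)
          (fun k => (((Pi.single j 1 : Fin d → ℤ) k : ℤ) : ℝ)) i := by
      simp only [Int.cast_zero]
      rfl
    rw [h7, h6]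
  · rw [rho_apply]
    have h6 := act_cast e 1 (Multiplicative.toAdd g) 0
    have h7 := congrFun h6 i
    simp only [Pi.zero_apply, Int.cast_zero, Int.cast_one] at h7
    rw [← h7]
    rfl

/-- The vertices of the product of two simplices. -/
def vtx (R : Type) [CommRing R] (p : Bool → A) : Fin d → R :=
  fun i => if (e i).2.1 = p (e i).1 then 1 else 0

lemma extd_blk_vtx (R : Type) [CommRing R] (p : Bool → A) (b : Bool) (a : A) :
    extd 1 (blk e (vtx e R p) b) a = if a = p b then 1 else 0 := by
  have h1 : blk e (vtx e R p) b = fun j : {a : A // a ≠ 0} =>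
      (fun a => if a = p b then (1 : R) else 0) j.1 := by
    funext j; simp [blk, vtx]
  rw [h1, extd_restrict 1 (fun a => if a = p b then (1 : R) else 0)]
  simp

lemma act_vtx (R : Type) [CommRing R] (g p : Bool → A) :
    act e 1 g (vtx e R p) = vtx e R (p + g) := by
  apply ext_of_extd e 1
  intro b a
  rw [extd_blk_act, extd_blk_vtx, extd_blk_vtx]
  simp [sub_eq_iff_eq_add]

omit [Fintype A] in
lemma vtx_cast (p : Bool → A) : (fun i => ((vtx e ℤ p i : ℤ) : ℝ)) = vtx e ℝ p := by
  funext i
  simp [vtx]

/-- The vertex set. -/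
def verts : Finset (Fin d → ℤ) := Finset.univ.image (vtx e ℤ)

lemma latticePolytope_verts :
    latticePolytope (verts e) = convexHull ℝ (Set.range (vtx e ℝ)) := by
  unfold latticePolytope verts
  congr 1
  ext x
  simp only [Finset.coe_image, Finset.coe_univ, Set.image_univ, Set.mem_image, Set.mem_range,
    exists_exists_eq_and]
  constructor
  · rintro ⟨p, hp⟩
    exact ⟨p, by rw [← vtx_cast]; exact hp⟩
  · rintro ⟨p, hp⟩
    exact ⟨p, by rw [← vtx_cast] at hp; exact hp⟩

lemma image_poly (g : Multiplicative (Bool → A)) :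
    realExt (rho e g) '' latticePolytope (verts e) = latticePolytope (verts e) := by
  have h1 : realExt (rho e g) = actAff e ℝ (Multiplicative.toAdd g) := by
    funext u; exact realExt_rho e g u
  rw [h1, latticePolytope_verts, AffineMap.image_convexHull]
  congr 1
  ext x
  simp only [Set.mem_image, Set.mem_range, exists_exists_eq_and]
  constructor
  · rintro ⟨p, hp⟩
    exact ⟨p + Multiplicative.toAdd g, by rw [← act_vtx]; exact hp⟩
  · rintro ⟨p, hp⟩
    refine ⟨p - Multiplicative.toAdd g, ?_⟩
    have h2 := act_vtx e ℝ (Multiplicative.toAdd g) (p - Multiplicative.toAdd g)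
    rw [sub_add_cancel] at h2
    rw [← hp, ← h2]
    rfl

/-- The barycentre. -/
noncomputable def bary : Fin d → ℝ := fun _ => 1 / (Fintype.card A : ℝ)

lemma extd_blk_bary (b : Bool) (a : A) :
    extd 1 (blk e (bary (A := A) (d := d)) b) a = 1 / (Fintype.card A : ℝ) := by
  have h1 : blk e (bary (A := A) (d := d)) b = fun j : {a : A // a ≠ 0} =>
      (fun _ : A => 1 / (Fintype.card A : ℝ)) j.1 := by
    funext j; simp [blk, bary]
  rw [h1, extd_restrict 1 (fun _ : A => 1 / (Fintype.card A : ℝ))]
  have : (Fintype.card A : ℝ) ≠ 0 := by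
    have := Fintype.card_ne_zero (α := A)
    exact_mod_cast this
  simp [this]

lemma act_bary (g : Bool → A) : act e 1 g (bary (A := A) (d := d)) = bary (A := A) (d := d) := by
  apply ext_of_extd e 1
  intro b a
  rw [extd_blk_act, extd_blk_bary, extd_blk_bary]

lemma bary_mem : bary (A := A) (d := d) ∈ latticePolytope (verts e) := by
  rw [latticePolytope_verts]
  have hc : (Fintype.card A : ℝ) ≠ 0 := by
    have := Fintype.card_ne_zero (α := A)
    exact_mod_cast this
  have h1 : bary (A := A) (d := d)
      = ∑ a : A, (1 / (Fintype.card A : ℝ)) • vtx e ℝ (fun _ => a) := by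
    funext i
    rw [Finset.sum_apply]
    simp [bary, vtx]
  rw [h1]
  apply (convex_convexHull ℝ _).sum_mem
  · intro a _; positivity
  · simp [hc]
  · intro a _
    exact subset_convexHull ℝ _ ⟨_, rfl⟩

lemma affineSpan_poly : affineSpan ℝ (latticePolytope (verts e)) = ⊤ := by
  rw [latticePolytope_verts, affineSpan_convexHull]
  rw [AffineSubspace.affineSpan_eq_top_iff_vectorSpan_eq_top_of_nonempty ℝ _ _
    (Set.range_nonempty _)]
  rw [eq_top_iff, ← (Pi.basisFun ℝ (Fin d)).span_eq, Submodule.span_le]
  rintro _ ⟨i, rfl⟩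
  rw [Pi.basisFun_apply]
  have h0 : vtx e ℝ (0 : Bool → A) = 0 := by
    funext i
    have := (e i).2.2
    simp [vtx, this]
  have h1 : vtx e ℝ (Pi.single (e i).1 (e i).2.1 : Bool → A) = Pi.single i 1 := by
    funext i'
    unfold vtx
    by_cases hi : i' = i
    · subst hi; simp
    · rw [Pi.single_eq_of_ne hi, if_neg]
      intro h
      apply hi
      by_cases hb : (e i').1 = (e i).1
      · rw [hb, Pi.single_eq_same] at h
        have : e i' = e i := Prod.ext hb (Subtype.ext h)
        exact e.injective this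
      · rw [Pi.single_eq_of_ne hb] at h
        exact absurd h (e i').2.2
  have h2 := vsub_mem_vectorSpan ℝ (s := Set.range (vtx e ℝ))
    (Set.mem_range_self (Pi.single (e i).1 (e i).2.1 : Bool → A)) (Set.mem_range_self 0)
  rw [h1, h0] at h2
  simpa using h2

/-- Two orbits directions that commute give an affine dependence. -/
lemma not_indep {s : Finset (Fin d → ℝ)}
    (hs : AffineIndependent ℝ ((↑) : s → (Fin d → ℝ))) {p q r t : Fin d → ℝ}
    (hp : p ∈ s) (hq : q ∈ s) (hr : r ∈ s) (ht : t ∈ s) (h : p + t = q + r) (hpq : q ≠ p)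
    (hpr : r ≠ p) : False := by
  classical
  rw [affineIndependent_iff] at hs
  let w : s → ℝ := fun x => (if x.1 = p then 1 else 0) + (if x.1 = t then 1 else 0)
    - (if x.1 = q then 1 else 0) - (if x.1 = r then 1 else 0)
  have hsingle : ∀ y ∈ s, ∑ x : s, (if x.1 = y then (1 : ℝ) else 0) = 1 := by
    intro y hy
    have : ∀ x : s, (if x.1 = y then (1 : ℝ) else 0) = if x = ⟨y, hy⟩ then 1 else 0 := by
      intro x
      congr 1
      rw [Subtype.ext_iff]
    simp_rw [this]
    simp
  have hsingle2 : ∀ y ∈ s, ∑ x : s, (if x.1 = y then (1 : ℝ) else 0) • x.1 = y := by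
    intro y hy
    have : ∀ x : s, (if x.1 = y then (1 : ℝ) else 0) • x.1 = if x = ⟨y, hy⟩ then y else 0 := by
      intro x
      by_cases hx : x.1 = y
      · have : x = ⟨y, hy⟩ := Subtype.ext hx
        simp [this]
      · have : x ≠ ⟨y, hy⟩ := fun h => hx (by rw [h])
        simp [hx, this]
    simp_rw [this]
    simp
  have h1 : ∑ x : s, w x = 0 := by
    simp only [w, Finset.sum_sub_distrib, Finset.sum_add_distrib]
    rw [hsingle p hp, hsingle t ht, hsingle q hq, hsingle r hr]
    norm_num
  have h2 : ∑ x : s, w x • x.1 = 0 := by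
    simp only [w, sub_smul, add_smul, Finset.sum_sub_distrib, Finset.sum_add_distrib]
    rw [hsingle2 p hp, hsingle2 t ht, hsingle2 q hq, hsingle2 r hr, h]
    abel
  have h3 := hs Finset.univ w h1 h2 ⟨p, hp⟩ (Finset.mem_univ _)
  have h4 : w ⟨p, hp⟩ = 1 + (if p = t then 1 else 0) := by
    simp [w, Ne.symm hpq, Ne.symm hpr]
  rw [h4] at h3
  split_ifs at h3 <;> norm_num at h3

lemma main_aux {N : ℕ} (hN : 0 < N) (hA : N < Fintype.card A)
    (K : Geometry.SimplicialComplex ℝ (Fin d → ℝ))
    (hK : IsInvariantTriangulation (rho e) (latticePolytope (verts e)) N K) : False := by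
  classical
  have hx : bary (A := A) (d := d) ∈ K.space := by
    rw [hK.space_eq]; exact bary_mem e
  obtain ⟨s0, hs0, hxs0⟩ := Geometry.SimplicialComplex.mem_space_iff.mp hx
  -- a face of minimal cardinality containing the barycentre in its hull
  obtain ⟨s, ⟨hs, hxs⟩, hmin⟩ : ∃ s : Finset (Fin d → ℝ),
      (s ∈ K.faces ∧ bary (A := A) (d := d) ∈ convexHull ℝ (s : Set (Fin d → ℝ))) ∧
      ∀ t : Finset (Fin d → ℝ), t ∈ K.faces →
        bary (A := A) (d := d) ∈ convexHull ℝ (t : Set (Fin d → ℝ)) → s.card ≤ t.card := by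
    have hne : {n : ℕ | ∃ t : Finset (Fin d → ℝ), t ∈ K.faces ∧
      bary (A := A) (d := d) ∈ convexHull ℝ (t : Set (Fin d → ℝ)) ∧ t.card = n}.Nonempty :=
      ⟨_, s0, hs0, hxs0, rfl⟩
    obtain ⟨s, h1, h2, h3⟩ := Nat.sInf_mem hne
    refine ⟨s, ⟨h1, h2⟩, ?_⟩
    intro t ht1 ht2
    rw [h3]
    exact Nat.sInf_le ⟨t, ht1, ht2, rfl⟩
  have hinv : ∀ g : Bool → A, ∀ v ∈ s, act e 1 g v ∈ s := by
    intro g v hv
    have h1 : realExt (rho e (Multiplicative.ofAdd g)) = actAff e ℝ g := by
      funext u; exact realExt_rho e _ u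
    have h2 := hK.invariant (Multiplicative.ofAdd g) s hs
    rw [h1] at h2
    set s' := s.image (actAff e ℝ g) with hs'
    have h3 : bary (A := A) (d := d) ∈ convexHull ℝ (s' : Set (Fin d → ℝ)) := by
      rw [hs', Finset.coe_image, ← AffineMap.image_convexHull]
      exact ⟨_, hxs, act_bary e g⟩
    have h4 : bary (A := A) (d := d) ∈ convexHull ℝ ((s ∩ s' : Finset (Fin d → ℝ)) :
        Set (Fin d → ℝ)) := by
      have := K.inter_subset_convexHull hs h2 ⟨hxs, h3⟩
      rwa [Finset.coe_inter]
    have h5 : (s ∩ s').Nonempty := by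
      have : ((s ∩ s' : Finset (Fin d → ℝ)) : Set (Fin d → ℝ)).Nonempty :=
        convexHull_nonempty_iff.mp ⟨_, h4⟩
      exact_mod_cast this
    have h6 : s ∩ s' ∈ K.faces := K.down_closed hs Finset.inter_subset_left h5
    have h7 := hmin _ h6 h4
    have h8 : s ∩ s' = s := Finset.eq_of_subset_of_card_le Finset.inter_subset_left h7
    have h9 : s ⊆ s' := by rw [← h8]; exact Finset.inter_subset_right
    have h10 : s = s' := Finset.eq_of_subset_of_card_le h9 Finset.card_image_le
    have h11 : actAff e ℝ g v ∈ s' := Finset.mem_image_of_mem _ hv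
    rw [← h10] at h11
    exact h11
  obtain ⟨v, hv⟩ := K.nonempty_of_mem_faces hs
  obtain ⟨m, hm⟩ := hK.vertices_mem s hs v hv
  -- no block of `v` is fixed by all translations
  have hmove : ∀ b : Bool, ∃ a : A, act e 1 (Pi.single b a) v ≠ v := by
    intro b
    by_contra hcon
    push Not at hcon
    have h1 : ∀ a : A, extd 1 (blk e v b) (-a) = extd 1 (blk e v b) 0 := by
      intro a
      have h2 := extd_blk_act e (1 : ℝ) (Pi.single b a) v b 0
      rw [hcon a, Pi.single_eq_same, zero_sub] at h2
      exact h2.symm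
    have h2 : ∀ a : A, extd 1 (blk e v b) a = extd 1 (blk e v b) 0 := by
      intro a
      have := h1 (-a)
      rwa [neg_neg] at this
    have h3 := sum_extd 1 (blk e v b)
    simp_rw [h2] at h3
    rw [Finset.sum_const, Finset.card_univ, nsmul_eq_mul] at h3
    have hcard : 1 < Fintype.card A := by omega
    obtain ⟨a, ha⟩ := Fintype.exists_ne_of_one_lt_card hcard 0
    have h4 : v (e.symm (b, ⟨a, ha⟩)) = extd 1 (blk e v b) 0 := by
      rw [← h2 a]
      simp [extd, ha, blk]
    have h5 := hm (e.symm (b, ⟨a, ha⟩))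
    rw [h4] at h5
    have h6 : (N : ℝ) = (Fintype.card A : ℝ) * (m (e.symm (b, ⟨a, ha⟩)) : ℝ) := by
      rw [← h5]
      calc (N : ℝ) = N * ((Fintype.card A : ℝ) * extd 1 (blk e v b) 0) := by rw [h3, mul_one]
        _ = _ := by ring
    have h7 : (N : ℤ) = (Fintype.card A : ℤ) * m (e.symm (b, ⟨a, ha⟩)) := by
      exact_mod_cast h6
    have h8 : (Fintype.card A : ℤ) ∣ (N : ℤ) := ⟨_, h7⟩
    have h9 : Fintype.card A ∣ N := by exact_mod_cast h8
    have h10 := Nat.le_of_dvd hN h9
    omega
  obtain ⟨a1, ha1⟩ := hmove true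
  obtain ⟨a2, ha2⟩ := hmove false
  have hsum : v + act e 1 (Pi.single true a1 + Pi.single false a2) v
      = act e 1 (Pi.single true a1) v + act e 1 (Pi.single false a2) v := by
    have hsum' : ∀ (b : Bool) (j : {a : A // a ≠ 0}),
        v (e.symm (b, j)) + act e 1 (Pi.single true a1 + Pi.single false a2) v (e.symm (b, j))
        = act e 1 (Pi.single true a1) v (e.symm (b, j))
          + act e 1 (Pi.single false a2) v (e.symm (b, j)) := by
      intro b j
      have hj := j.2
      have hv0 : extd 1 (blk e v b) j.1 = v (e.symm (b, j)) := by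
        simp [extd, hj, blk]
      rw [← hv0]
      cases b
      · simp [act, add_comm]
      · simp [act, add_comm]
    funext i
    have := hsum' (e i).1 (e i).2
    simpa using this
  exact not_indep (K.indep hs) hv (hinv _ _ hv) (hinv _ _ hv) (hinv _ _ hv) hsum ha1 ha2

end aux

/-- For all integers `e ≥ 2` and `N ≥ 1` there are a finite (abelian) group `G` of exponent `e`,
an action `ρ` of `G` by affine automorphisms of the lattice `ℤ^d` and a `d`-dimensional
`G`-invariant lattice polytope `P` (the convex hull of a finite set `V` of lattice points) such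
that no `G`-invariant triangulation of `P`, regular or not, has all its vertices in
`(1/N) ℤ^d`. With `N = e` this is the negated form of Q1, for every exponent `e ≥ 2`. -/
theorem result (e : ℕ) (he : 2 ≤ e) (N : ℕ) (hN : 1 ≤ N) :
    ∃ (G : Type) (_ : CommGroup G) (_ : Finite G) (d : ℕ)
      (ρ : G →* ((Fin d → ℤ) ≃ᵃ[ℤ] (Fin d → ℤ))) (V : Finset (Fin d → ℤ)),
      Monoid.exponent G = e ∧
      affineSpan ℝ (latticePolytope V) = ⊤ ∧
      (∀ g : G, realExt (ρ g) '' latticePolytope V = latticePolytope V) ∧
      ¬ ∃ K : Geometry.SimplicialComplex ℝ (Fin d → ℝ),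
        IsInvariantTriangulation ρ (latticePolytope V) N K := by
  classical
  have : NeZero e := ⟨by omega⟩
  let A : Type := Fin N → ZMod e
  have hcard : N < Fintype.card A := by
    have : Fintype.card A = e ^ N := by simp [A, ZMod.card]
    rw [this]; exact Nat.lt_pow_self (by omega)
  let ε : Fin (Fintype.card (Bool × {a : A // a ≠ 0})) ≃ Bool × {a : A // a ≠ 0} :=
    (Fintype.equivFin _).symm
  refine ⟨Multiplicative (Bool → A), inferInstance, inferInstance, _, rho ε, verts ε, ?_,
    affineSpan_poly ε, image_poly ε, ?_⟩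
  · apply Nat.dvd_antisymm
    · apply Monoid.exponent_dvd_of_forall_pow_eq_one
      intro g
      apply Multiplicative.toAdd.injective
      rw [toAdd_pow, toAdd_one]
      funext b i
      change e • (Multiplicative.toAdd g b i) = 0
      rw [nsmul_eq_mul]
      simp
    · have h1 := Monoid.pow_exponent_eq_one
        (Multiplicative.ofAdd (fun (_ : Bool) (_ : Fin N) => (1 : ZMod e)) :
          Multiplicative (Bool → A))
      have h2 := congrArg Multiplicative.toAdd h1
      rw [toAdd_pow, toAdd_one] at h2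
      have h3 := congrFun (congrFun h2 true) ⟨0, hN⟩
      change Monoid.exponent (Multiplicative (Bool → A)) • (1 : ZMod e) = 0 at h3
      rw [nsmul_eq_mul, mul_one] at h3
      exact (ZMod.natCast_eq_zero_iff _ _).mp h3
  · rintro ⟨K, hK⟩
    exact main_aux ε (by omega) hcard K hK

end Pool.Agent.Results.MP_ee8878_co.ExponentTriangulation
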